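import Pool.Agent.H20.RT.Vp

/-!
# [H32 RT Bas] THEOREM R (MP_e49dc9_ag): a basis of the smallest rational subspace containing `p`

`vp_basis`: integral vectors `d i` which are a basis of `Vp p`, coordinates `L`, and the coordinates `L p` of `p` are linearly independent
over `ℚ`.
-/

set_option autoImplicit false

namespace Pool.Agent.H32.RT

open Pool.Agent.H20.TD Pool.Agent.H20.RT

variable {r : ℕ}

theorem vp_basis (p : Fin r → ℝ) : ∃ (s : ℕ) (d : Fin s → Fin r → ℤ) (L : (Fin r → ℝ) →ₗ[ℝ] (Fin s → ℝ)),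
    (∀ i, rv (d i) ∈ Vp p) ∧ (∀ w ∈ Vp p, w = ∑ i, L w i • rv (d i)) ∧
    ∀ z : Fin s → ℤ, ∑ i, (z i : ℝ) * L p i = 0 → z = 0 := by
  classical
  obtain ⟨b, hb, hspan, hli⟩ := exists_linearIndependent ℝ {w | ∃ d : Fin r → ℤ, rv d ∈ Vp p ∧ w = rv d}
  rw [← vp_span] at hspan
  have hfin : b.Finite := hli.setFinite
  have : Fintype b := hfin.fintype
  obtain ⟨e⟩ : Nonempty (b ≃ Fin (Fintype.card b)) := ⟨Fintype.equivFin b⟩
  obtain ⟨s, hs⟩ : ∃ s, s = Fintype.card b := ⟨_, rfl⟩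
  rw [← hs] at e
  have hd : ∀ i : Fin s, ∃ d : Fin r → ℤ, rv d ∈ Vp p ∧ ((e.symm i : b) : Fin r → ℝ) = rv d := fun i => hb (e.symm i).2
  choose d hdV hd using hd
  have hli' : LinearIndependent ℝ fun i => rv (d i) := by
    have h1 := hli.comp _ e.symm.injective
    have h2 : (fun i => rv (d i)) = (fun x : b => (x : Fin r → ℝ)) ∘ e.symm := by
      funext i
      rw [Function.comp_apply, hd]
    rw [h2]
    exact h1
  have hsp : Vp p = Submodule.span ℝ (Set.range fun i => rv (d i)) := by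
    rw [← hspan]
    congr 1
    ext x
    constructor
    · intro hx
      refine ⟨e ⟨x, hx⟩, ?_⟩
      show rv (d (e ⟨x, hx⟩)) = x
      rw [← hd, Equiv.symm_apply_apply]
    · rintro ⟨i, rfl⟩
      show rv (d i) ∈ b
      rw [← hd]
      exact (e.symm i).2
  obtain ⟨L, hL⟩ := LinearMap.exists_leftInverse_of_injective (Fintype.linearCombination ℝ fun i => rv (d i))
    (LinearMap.ker_eq_bot.2 hli'.fintypeLinearCombination_injective)
  have hLc : ∀ a : Fin s → ℝ, L (∑ i, a i • rv (d i)) = a := fun a => by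
    have h1 := LinearMap.congr_fun hL a
    rw [LinearMap.comp_apply, Fintype.linearCombination_apply, LinearMap.id_apply] at h1
    exact h1
  have hw : ∀ w ∈ Vp p, w = ∑ i, L w i • rv (d i) := by
    intro w hw
    rw [hsp, Submodule.mem_span_range_iff_exists_fun] at hw
    obtain ⟨a, rfl⟩ := hw
    rw [hLc]
  refine ⟨s, d, L, hdV, hw, fun z hz => ?_⟩
  -- a rational functional with values `z i`
  have hliQ : Function.Injective (Fintype.linearCombination ℚ fun i : Fin s => (fun j => ((d i j : ℤ) : ℚ) : Fin r → ℚ)) := by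
    intro a a' haa
    have h1 : ∀ a : Fin s → ℚ, ∀ j, (∑ i, ((a i : ℚ) : ℝ) • rv (d i)) j =
        (((Fintype.linearCombination ℚ fun i : Fin s => (fun j => ((d i j : ℤ) : ℚ) : Fin r → ℚ)) a j : ℚ) : ℝ) := by
      intro a j
      rw [Fintype.linearCombination_apply, Finset.sum_apply, Finset.sum_apply]
      push_cast
      exact Finset.sum_congr rfl fun i _ => by simp [rv]
    have h2 : (∑ i, ((a i : ℚ) : ℝ) • rv (d i)) = ∑ i, ((a' i : ℚ) : ℝ) • rv (d i) := by
      funext j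
      rw [h1, h1, haa]
    have h3 := congrArg L h2
    rw [hLc (fun i => ((a i : ℚ) : ℝ)), hLc (fun i => ((a' i : ℚ) : ℝ))] at h3
    funext i
    exact_mod_cast congrFun h3 i
  obtain ⟨g, hg⟩ := LinearMap.exists_leftInverse_of_injective _ (LinearMap.ker_eq_bot.2 hliQ)
  have hgd : ∀ i, g (fun j => ((d i j : ℤ) : ℚ)) = Pi.single i 1 := by
    intro i
    have h1 := LinearMap.congr_fun hg (Pi.single i 1)
    rw [LinearMap.comp_apply, Fintype.linearCombination_apply_single, one_smul, LinearMap.id_apply] at h1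
    exact h1
  obtain ⟨f, hf⟩ : ∃ f : (Fin r → ℚ) →ₗ[ℚ] ℚ, f = (∑ i, (z i : ℚ) • LinearMap.proj i) ∘ₗ g := ⟨_, rfl⟩
  have hfd : ∀ i, f (fun j => ((d i j : ℤ) : ℚ)) = z i := by
    intro i
    rw [hf, LinearMap.comp_apply, hgd, LinearMap.sum_apply, Finset.sum_eq_single i]
    · simp
    · intro j _ hj
      simp [hj]
    · intro hi
      exact absurd (Finset.mem_univ i) hi
  obtain ⟨N, φ, hN, hφ⟩ := Pool.Agent.H32.TN.clear_den fun j => f (Pi.single j 1)
  have hφd : ∀ i, rv φ ⬝ᵥ rv (d i) = N * z i := by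
    intro i
    have h1 : f (fun j => ((d i j : ℤ) : ℚ)) = ∑ j, ((d i j : ℤ) : ℚ) * f (Pi.single j 1) := by
      rw [LinearMap.pi_apply_eq_sum_univ f]
      refine Finset.sum_congr rfl fun j _ => ?_
      rw [smul_eq_mul]
      congr 2
      funext j'
      rw [Pi.single_apply]
      simp only [eq_comm]
    have h2 : ∑ j, ((φ j : ℤ) : ℚ) * ((d i j : ℤ) : ℚ) = N * z i := by
      rw [← hfd i, h1, Finset.mul_sum]
      exact Finset.sum_congr rfl fun j _ => by rw [hφ]; ring
    have h3 : ((∑ j, ((φ j : ℤ) : ℚ) * ((d i j : ℤ) : ℚ) : ℚ) : ℝ) = ((N * z i : ℚ) : ℝ) := by rw [h2]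
    push_cast at h3
    exact h3
  have hφp : rv φ ⬝ᵥ p = 0 := by
    conv_lhs => rw [hw p (self_vp p)]
    rw [dotProduct_sum]
    have h1 : ∑ i, rv φ ⬝ᵥ (L p i • rv (d i)) = N * ∑ i, (z i : ℝ) * L p i := by
      rw [Finset.mul_sum]
      refine Finset.sum_congr rfl fun i _ => ?_
      rw [dotProduct_smul, hφd, smul_eq_mul]
      ring
    rw [h1, hz, mul_zero]
  funext i
  have h1 := mem_vp.1 (hdV i) φ hφp
  rw [hφd] at h1
  have h2 : (N : ℝ) ≠ 0 := by exact_mod_cast hN.ne'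
  have h3 := (mul_eq_zero.1 h1).resolve_left h2
  exact_mod_cast h3

end Pool.Agent.H32.RT
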