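import Pool.Agent.H20.RT.Bgd
import Pool.Agent.H32.TN.Int
import Pool.Agent.H32.RT.Bas

/-!
# [H32 RT Ww] THEOREM R (MP_e49dc9_ag): `T = 0` on `Vp p`

`vp_pnt`: the frame `Pnt` of `p` with classes `G i` which are a basis of `Vp p`.
`sq_vp`: if `p . p` is a multiple of an integral class and `p . p . p = 0` then `T(p,p,.) = 0` on `Vp p`.
`div_spr`: an effective divisor which is not a unit at the generic point of the prime divisor `S` is `S` plus an effective divisor.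
`zs`: the surfaces `S` in the zero set of a section of `W`, `W` in `Vp p`, have `T(p,p,S) = 0`.
`t0`: `T = 0` on `Vp p`.
-/

set_option autoImplicit false

namespace Pool.Agent.H32.RT

open Pool.Agent.H54.RV Pool.Agent.H83.TU Pool.Agent.H83.TK Pool.Agent.H20.TD Pool.Agent.H20.TP Pool.Agent.H39.TQ
  Pool.Agent.H36.TZ Pool.Agent.H36.TQ Pool.Agent.H89.ZN Pool.Agent.H32.TN Pool.Agent.H20.RT
open Pool.Agent.H24.VP (RR chS Tri)
open Pool.Agent.H39.TZ (FamB FamC FamC2 HilbR cube_nn exists_E nfr_of T_pT T_pz T_p3 l_dl p_eq z_co)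

variable {k K : Type} [Field k] [Field K] [Algebra k K] {X : Mod k K} {r : ℕ}
  {ν : Cart X →* Multiplicative (Fin r → ℤ)} {T : Cart X → Cart X → Cart X → ℝ} {l : Cart X → ℝ} {c : ℝ} {TR : Tri3 r}
  {p : Fin r → ℝ} {z : X.P} {S : Cart X}

private theorem lin_bd' (φ : (Fin r → ℝ) →ₗ[ℝ] ℝ) : ∃ M : ℝ, 0 ≤ M ∧ ∀ v, |φ v| ≤ M * ‖v‖ :=
  ⟨‖LinearMap.toContinuousLinearMap φ‖, norm_nonneg _, fun v =>
    (LinearMap.toContinuousLinearMap φ).le_opNorm v⟩

/-- the frame `Pnt` with a basis of `Vp p` -/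
theorem vp_pnt [IsAlgClosed k] [CharZero k] [T0Space X.P] (h : Hyp X) (hν : NumR ν)
    {l₀ : Cart X → ℝ} (hr : RR T l₀ c)
    (hT : ∀ U V W, TR (Pool.Agent.H20.TP.cR ν U) (Pool.Agent.H20.TP.cR ν V) (Pool.Agent.H20.TP.cR ν W) = T U V W)
    {l : (Fin r → ℝ) →ₗ[ℝ] ℝ} (hl : ∀ D, l (Pool.Agent.H20.TP.cR ν D) = l₀ D)
    (hp : p ∈ closure (AmpR ν)) (hlp : 0 < l p) (h3 : TR p p p = 0) {A : Cart X} (hA : Ample A) :
    ∃ (s : ℕ) (G : Fin s → Cart X) (L : (Fin r → ℝ) →ₗ[ℝ] (Fin s → ℝ)), Pnt T l₀ c A G (L p) ∧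
      (∀ i, Pool.Agent.H20.TP.cR ν (G i) ∈ Vp p) ∧ (∀ w ∈ Vp p, w = ∑ i, L w i • Pool.Agent.H20.TP.cR ν (G i)) ∧
      (∀ U V, TR p (Pool.Agent.H20.TP.cR ν U) (Pool.Agent.H20.TP.cR ν V) = pT T G (L p) U V) ∧
      ∀ U, TR p p (Pool.Agent.H20.TP.cR ν U) = pz T G (L p) U := by
  obtain ⟨E, hE⟩ := exists_E hν
  have hn := nfr_of h.var hν hA hE hp
  obtain ⟨s, d, L, hdV, hw, hlin⟩ := vp_basis p
  have hy : ∀ j, p j = ∑ i, ((d i j : ℤ) : ℝ) * L p i := by
    intro j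
    conv_lhs => rw [hw p (self_vp p)]
    rw [Finset.sum_apply]
    exact Finset.sum_congr rfl fun i _ => by rw [Pi.smul_apply, smul_eq_mul, mul_comm]; rfl
  obtain ⟨G, hG⟩ : ∃ G : Fin s → Cart X, G = fun i => ∏ j, E j ^ d i j := ⟨_, rfl⟩
  have hd : ∀ δ : Cart X → ℝ, (∀ U V, δ (U * V) = δ U + δ V) → dl δ G (L p) = dl δ E p := by
    intro δ hδ
    rw [hG]
    exact red_dl E p (L p) (fun j i => d i j) hy δ hδ
  have hnG : Nfr A G (L p) := by
    rw [hG]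
    exact nfr_red h hA E p (L p) (fun j i => d i j) hy hn
  have hP : Pnt T l₀ c A G (L p) := by
    refine ⟨hr, rn_of h hA hnG, hlin, ?_, ?_⟩
    · rw [trf_p3 hr.tri hd, ← T_p3 hT hE]
      exact h3
    · rw [hd l₀ hr.ladd, ← l_dl hl hE]
      exact hlp
  have hGd : ∀ i, Pool.Agent.H20.TP.cR ν (G i) = rv (d i) := by
    intro i
    have h1 : ci ν (G i) = d i := by
      rw [hG]
      unfold ci
      rw [map_prod, toAdd_prod]
      funext j
      rw [Finset.sum_apply, Finset.sum_eq_single j]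
      · have h2 := congrFun (hE j) j
        rw [Pi.single_eq_same] at h2
        rw [map_zpow, toAdd_zpow, Pi.smul_apply, smul_eq_mul]
        change d i j * ci ν (E j) j = d i j
        rw [h2, mul_one]
      · intro j' _ hj
        have h2 := congrFun (hE j') j
        rw [Pi.single_eq_of_ne hj.symm] at h2
        rw [map_zpow, toAdd_zpow, Pi.smul_apply, smul_eq_mul]
        change d i j' * ci ν (E j') j = 0
        rw [h2, mul_zero]
      · intro hj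
        exact absurd (Finset.mem_univ j) hj
    change rv (ci ν (G i)) = _
    rw [h1]
  refine ⟨s, G, L, hP, fun i => ?_, fun w hwV => ?_, fun U V => ?_, fun U => ?_⟩
  · rw [hGd]
    exact hdV i
  · conv_lhs => rw [hw w hwV]
    exact Finset.sum_congr rfl fun i _ => by rw [hGd]
  · rw [trf_pT hr.tri hd, T_pT hT hE]
  · rw [trf_pz hr.tri hd, T_pz hT hE]

/-- `T(p,p,.) = 0` on `Vp p` -/
theorem sq_vp (hν : NumR ν) (h3 : TR p p p = 0) (hpp : TR p p ≠ 0) (hI : SqInt ν TR p) : ∀ w ∈ Vp p, TR p p w = 0 := by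
  obtain ⟨φ, τ, hφ, hsq⟩ := hI
  have hτ : τ ≠ 0 := by
    intro h4
    refine hpp (LinearMap.ext fun v => ?_)
    rw [hsq, h4, zero_mul, LinearMap.zero_apply]
  have hφp : φ p = 0 := by
    rw [hsq] at h3
    exact (mul_eq_zero.1 h3).resolve_left hτ
  intro w hw
  rw [hsq, vp_int hν hφ hφp hw, mul_zero]

/-- an effective divisor through the generic point of `S` contains `S` -/
theorem div_spr (hX : IsVar X) (hS : SPr X z S) {E : Cart X} (hE : Effective E) (hun : ¬ Un (X.O z) (E.eq z)) :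
    Effective (E * S⁻¹) := by
  intro x
  rw [mul_eq, inv_eq, ← div_eq_mul_inv, hS.mem_iff hX x (hE x)]
  intro hx h1
  apply hun
  have h2 := quo_un E z x hx
  have h3 : E.eq z = E.eq x * (E.eq x / E.eq z)⁻¹ := by
    have := E.ne x
    have := E.ne z
    field_simp
  rw [h3]
  exact un_mul h1 (un_inv h2)

theorem cr_prin (hν : NumR ν) (W : Cart X) (s : K) (hs : s ≠ 0) :
    Pool.Agent.H20.TP.cR ν (prin X s hs * W) = Pool.Agent.H20.TP.cR ν W := by
  have h1 := (hν.ker _).2 (numz_prin s hs)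
  have h2 : ci ν (prin X s hs * W) = ci ν W := by
    unfold ci
    rw [map_mul, h1, one_mul]
  show rv (ci ν (prin X s hs * W)) = rv (ci ν W)
  rw [h2]

theorem cr_mul (U V : Cart X) : Pool.Agent.H20.TP.cR ν (U * V) = Pool.Agent.H20.TP.cR ν U + Pool.Agent.H20.TP.cR ν V := by
  show rv (ci ν (U * V)) = rv (ci ν U) + rv (ci ν V)
  rw [ci_mul, rv_add]

theorem cr_inv (U : Cart X) : Pool.Agent.H20.TP.cR ν U⁻¹ = - Pool.Agent.H20.TP.cR ν U := by
  show rv (ci ν U⁻¹) = - rv (ci ν U)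
  rw [ci_inv, rv_neg]

/-- nef classes are not negative on effective divisors -/
theorem sq_eff [IsAlgClosed k] [CharZero k] [T0Space X.P] (h : Hyp X) (hν : NumR ν) (hr : RR T l c)
    (hT : ∀ U V W, TR (Pool.Agent.H20.TP.cR ν U) (Pool.Agent.H20.TP.cR ν V) (Pool.Agent.H20.TP.cR ν W) = T U V W)
    (hp : p ∈ closure (AmpR ν)) {E : Cart X} (hE : Effective E) : 0 ≤ TR p p (Pool.Agent.H20.TP.cR ν E) := by
  obtain ⟨E₀, hE₀⟩ := exists_E hν
  obtain ⟨A, hA⟩ := h.amp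
  rw [T_pz hT hE₀]
  exact pz_eff h hr (rn_of h hA (nfr_of h.var hν hA hE₀ hp)) hE

/-- the surfaces in the zero set of a section of `W` -/
theorem zs [IsAlgClosed k] [CharZero k] [T0Space X.P] (h : Hyp X) (hν : NumR ν) (hr : RR T l c)
    (hT : ∀ U V W, TR (Pool.Agent.H20.TP.cR ν U) (Pool.Agent.H20.TP.cR ν V) (Pool.Agent.H20.TP.cR ν W) = T U V W)
    (hp : p ∈ closure (AmpR ν)) (hS : SPr X z S) {W : Cart X} {Z : Set X.P} (hW : HasX W Z) (hz : z ∈ Z)
    (h0 : TR p p (Pool.Agent.H20.TP.cR ν W) = 0) : TR p p (Pool.Agent.H20.TP.cR ν S) = 0 := by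
  obtain ⟨s, hs, hsec, rfl⟩ := hW
  have hE : Effective (prin X s hs * W) := fun x => by
    have h1 := hsec x
    rw [pow_one] at h1
    exact h1
  have h1 := div_spr h.var hS hE hz
  have h2 := sq_eff h hν hr hT hp h1
  have h4 := sq_eff h hν hr hT hp hS.eff
  rw [cr_mul, cr_inv, cr_prin hν, map_add, map_neg, h0] at h2
  linarith

theorem eff_one' : Effective (1 : Cart X) := fun x => by
  rw [one_eq]
  exact (X.O x).one_mem

/-- effective divisors with effective inverse are trivial -/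
theorem triv_R [CharZero k] (h : Hyp X) (hν : NumR ν) (hr : RR T l c)
    (hT : ∀ U V W, TR (Pool.Agent.H20.TP.cR ν U) (Pool.Agent.H20.TP.cR ν V) (Pool.Agent.H20.TP.cR ν W) = T U V W)
    {U : Cart X} (hU : Effective U) (hU' : Effective U⁻¹) (u v : Fin r → ℝ) :
    TR u v (Pool.Agent.H20.TP.cR ν U) = 0 := by
  rw [tr_s23 hν hr.tri hT, tr_s12 hν hr.tri hT]
  have h1 : TR (Pool.Agent.H20.TP.cR ν U) = 0 := ext_uniq hν fun V => ext_uniq hν fun W => by
    have h2 := hT U V W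
    rw [Pool.Agent.H24.VP.triv_T h hr hU hU'] at h2
    exact h2
  rw [h1, LinearMap.zero_apply, LinearMap.zero_apply]

theorem eff_lprod {Ls : List (PDiv X × Cart X)} (h : ∀ P ∈ Ls, SPr X P.1.η P.2) :
    Effective (Ls.map Prod.snd).prod := by
  induction Ls with
  | nil =>
    rw [List.map_nil, List.prod_nil]
    exact eff_one'
  | cons P Ls ih =>
    rw [List.map_cons, List.prod_cons]
    exact Pool.Agent.H32.TK.effective_mul (h P (by simp)).eff (ih fun Q hQ => h Q (by simp [hQ]))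

/-- the class of a divisor with a section, in `Vp p` -/
theorem t_supp [IsAlgClosed k] [CharZero k] [T0Space X.P] (h : Hyp X) (hν : NumR ν) (hr : RR T l c)
    (hT : ∀ U V W, TR (Pool.Agent.H20.TP.cR ν U) (Pool.Agent.H20.TP.cR ν V) (Pool.Agent.H20.TP.cR ν W) = T U V W)
    (hp : p ∈ closure (AmpR ν)) (hpp : TR p p ≠ 0) (hz0 : ∀ w ∈ Vp p, TR p p w = 0) {W : Cart X}
    (hWV : Pool.Agent.H20.TP.cR ν W ∈ Vp p) (hW : 0 < h0 W 1) {u v : Fin r → ℝ} (hu : u ∈ Vp p) (hv : v ∈ Vp p) :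
    TR u v (Pool.Agent.H20.TP.cR ν W) = 0 := by
  obtain ⟨A, hA⟩ := h.amp
  have hpC : p ∈ closure (CC ν) := by
    rw [← cl_eq h.var hν]
    exact hp
  have hpA := sq_amp h hν hr hT hp hpp hA
  obtain ⟨s, hs, hE⟩ := Pool.Agent.H20.TK.eff_of_pos _ hW
  obtain ⟨Ls, U, h1, hU, hU', h2⟩ := Pool.Agent.H24.VP.fac_eff h hr hE
  have h4 : Pool.Agent.H20.TP.cR ν W = Pool.Agent.H20.TP.cR ν (Ls.map Prod.snd).prod + Pool.Agent.H20.TP.cR ν U := by
    rw [← cr_prin hν W s hs, h2, cr_mul]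
  have h5 := hz0 _ hWV
  rw [h4, map_add, triv_R h hν hr hT hU hU', add_zero] at h5
  have key : ∀ Ls : List (PDiv X × Cart X), (∀ P ∈ Ls, SPr X P.1.η P.2) →
      TR p p (Pool.Agent.H20.TP.cR ν (Ls.map Prod.snd).prod) = 0 →
      TR u v (Pool.Agent.H20.TP.cR ν (Ls.map Prod.snd).prod) = 0 := by
    intro Ls
    induction Ls with
    | nil =>
      intro _ _
      rw [List.map_nil, List.prod_nil]
      exact triv_R h hν hr hT eff_one' (by rw [inv_one]; exact eff_one') u v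
    | cons P Ls ih =>
      intro hLs h6
      have hLs' : ∀ Q ∈ Ls, SPr X Q.1.η Q.2 := fun Q hQ => hLs Q (by simp [hQ])
      have hP := hLs P (by simp)
      rw [List.map_cons, List.prod_cons, cr_mul, map_add] at h6 ⊢
      have h7 := sq_eff h hν hr hT hp hP.eff
      have h8 := sq_eff h hν hr hT hp (eff_lprod hLs')
      rw [bgd2 h hr hν hT (Pool.Agent.H20.TK.trdeg_spr h hP) hP hA hpC hpA hz0 (by linarith) hu hv,
        ih hLs' (by linarith), add_zero]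
  rw [h4, map_add, triv_R h hν hr hT hU hU', add_zero]
  exact key Ls h1 h5

/-- **`T = 0` on `Vp p`** -/
theorem t0 [IsAlgClosed k] [CharZero k] [T0Space X.P] (h : Hyp X) (hν : NumR ν)
    {l₀ : Cart X → ℝ} (hr : RR T l₀ c)
    (hT : ∀ U V W, TR (Pool.Agent.H20.TP.cR ν U) (Pool.Agent.H20.TP.cR ν V) (Pool.Agent.H20.TP.cR ν W) = T U V W)
    {l : (Fin r → ℝ) →ₗ[ℝ] ℝ} (hl : ∀ D, l (Pool.Agent.H20.TP.cR ν D) = l₀ D)
    (hp : p ∈ closure (AmpR ν)) (hlp : 0 < l p) (hpp : TR p p ≠ 0) (hz0 : ∀ w ∈ Vp p, TR p p w = 0) :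
    ∀ u ∈ Vp p, ∀ v ∈ Vp p, ∀ w ∈ Vp p, TR u v w = 0 := by
  have h3 : TR p p p = 0 := hz0 p (self_vp p)
  obtain ⟨A, hA⟩ := h.amp
  have hpA := sq_amp h hν hr hT hp hpp hA
  obtain ⟨s, G, L, hP, hGV, hw, hpT, hpz⟩ := vp_pnt h hν hr hT hl hp hlp h3 hA
  obtain ⟨q, hq⟩ : ∃ q, q = L p := ⟨_, rfl⟩
  rw [← hq] at hP hpT hpz
  have hlpG : 0 < ∑ i, q i * l₀ (G i) := hP.lp
  have ha : 0 < pz T G q A := by
    rw [← hpz]
    exact hpA
  have hzG : ∀ i, pz T G q (G i) = 0 := fun i => by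
    rw [← hpz]
    exact hz0 _ (hGV i)
  have hlin : ∀ z : Fin s → ℤ, ∑ i, q i * z i = 0 → z = 0 := by
    intro z hz
    refine hP.lin z ?_
    rw [← hz]
    exact Finset.sum_congr rfl fun i _ => mul_comm _ _
  have ht := hr.tri
  obtain ⟨δ, hδ, x₀, C₀, hlb⟩ := Pool.Agent.H83.ZU.lb_p h hr hP.rn hP.p3 ha hlpG hlin
  obtain ⟨lp, hlpd⟩ : ∃ lp, lp = ∑ i, q i * l₀ (G i) := ⟨_, rfl⟩
  rw [← hlpd] at hlb hlpG
  obtain ⟨x₁, hpos⟩ := Pool.Agent.H83.ZU.lb_pos hlpG hlb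
  have hcW : ∀ n : Fin s → ℤ, Pool.Agent.H20.TP.cR ν (∏ i, G i ^ n i) = ∑ i, (n i : ℝ) • Pool.Agent.H20.TP.cR ν (G i) :=
    fun n => cR_pw G n
  -- `T(u,v,p) = 0`
  have key : ∀ u ∈ Vp p, ∀ v ∈ Vp p, TR u v p = 0 := by
    intro u hu v hv
    obtain ⟨M, hM0, hM⟩ := lin_bd' (TR u v)
    obtain ⟨D, hD⟩ : ∃ D, D = δ * ∑ i, ‖Pool.Agent.H20.TP.cR ν (G i)‖ := ⟨_, rfl⟩
    have hD0 : 0 ≤ D := by
      rw [hD]
      positivity
    by_contra hne
    have hne' : 0 < |TR u v p| := abs_pos.2 hne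
    obtain ⟨x, n, hx, hn⟩ := dio q hδ (max x₁ (max 1 ((M * D + 1) / |TR u v p|)))
    have hx1 : 1 ≤ x := (le_max_left _ _).trans ((le_max_right _ _).trans hx)
    have hx2 : (M * D + 1) / |TR u v p| ≤ x := (le_max_right _ _).trans ((le_max_right _ _).trans hx)
    have hD0' : pz T G q (∏ i, G i ^ n i) = 0 := by
      rw [pz_prod ht]
      refine Finset.sum_eq_zero fun i _ => ?_
      rw [pz_zpow ht, hzG, mul_zero]
    have h5 := hpos n x ((le_max_left _ _).trans hx) hn (by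
      rw [hD0', mul_zero]
      linarith)
    have h6 : 0 < h0 (∏ i, G i ^ n i) 1 := by
      have h7 : (0 : ℝ) < h0 (∏ i, G i ^ n i) 1 := lt_of_lt_of_le (by positivity) h5
      exact_mod_cast h7
    have hWV : Pool.Agent.H20.TP.cR ν (∏ i, G i ^ n i) ∈ Vp p := by
      rw [hcW]
      exact Submodule.sum_mem _ fun i _ => Submodule.smul_mem _ _ (hGV i)
    have h7 := t_supp h hν hr hT hp hpp hz0 hWV h6 hu hv
    have h8 : x • p - Pool.Agent.H20.TP.cR ν (∏ i, G i ^ n i) =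
        ∑ i, (x * q i - n i) • Pool.Agent.H20.TP.cR ν (G i) := by
      conv_lhs => rw [hw p (self_vp p), hcW, Finset.smul_sum, ← hq]
      rw [← Finset.sum_sub_distrib]
      exact Finset.sum_congr rfl fun i _ => by rw [smul_smul, sub_smul]
    have h9 : ‖x • p - Pool.Agent.H20.TP.cR ν (∏ i, G i ^ n i)‖ ≤ D := by
      rw [h8, hD, Finset.mul_sum]
      refine (norm_sum_le _ _).trans (Finset.sum_le_sum fun i _ => ?_)
      rw [norm_smul, Real.norm_eq_abs, abs_sub_comm]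
      exact mul_le_mul_of_nonneg_right (hn i) (norm_nonneg _)
    have h10 := hM (x • p - Pool.Agent.H20.TP.cR ν (∏ i, G i ^ n i))
    rw [map_sub, h7, sub_zero, map_smul, smul_eq_mul, abs_mul, abs_of_pos (by linarith : (0 : ℝ) < x)] at h10
    rw [div_le_iff₀ hne'] at hx2
    have h11 : M * ‖x • p - Pool.Agent.H20.TP.cR ν (∏ i, G i ^ n i)‖ ≤ M * D := mul_le_mul_of_nonneg_left h9 hM0
    linarith
  intro u hu v hv w hw'
  rw [hw v hv, hw w hw']
  simp only [map_sum, map_smul, LinearMap.sum_apply, LinearMap.smul_apply, smul_eq_mul]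
  refine Finset.sum_eq_zero fun i _ => ?_
  refine mul_eq_zero_of_right _ (Finset.sum_eq_zero fun j _ => ?_)
  have h4 : TR p (Pool.Agent.H20.TP.cR ν (G j)) (Pool.Agent.H20.TP.cR ν (G i)) = 0 := by
    rw [tr_s12 hν hr.tri hT, tr_s23 hν hr.tri hT]
    exact key _ (hGV j) _ (hGV i)
  rw [vp_tri hr hν hT ⟨A, hA⟩ h4 hu, mul_zero]

end Pool.Agent.H32.RT
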